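import Pool.Agent.Helper28.T7N.Asm
import Pool.Agent.Helper28.T7V.GenQ
import Pool.Agent.Helper53.TLN.M_NH2
import Pool.Agent.Helper60.TLN.M_NH1
import Pool.Agent.Helper60.LV.M_CA1
import Pool.Agent.Helper97.LV.M_CA2
import Pool.Agent.Helper4.LV.M_CA3
import Pool.Agent.Helper76.LV.M_CA4
import Pool.Agent.Helper28.T7N.M_FG
import Pool.Agent.Helper28.T7N.M_NS
import Pool.Agent.Helper44.T7N.M_MF
import Pool.Agent.Helper28.T7N.M_QFa
import Pool.Agent.Helper28.T7N.M_QFb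
import Pool.Agent.Helper28.T7N.M_DC
import Pool.Agent.Helper51.T7N.M_NR
import Pool.Agent.Helper45.T7N.M_CA5
import Pool.Agent.Helper28.T7N.M_NE

/-!
# Level `7p` in the weights congruent to two modulo four, and all levels `7 p^n`, `f | W_7 = f`
-/

set_option autoImplicit false

open Pool.Agent.Helper14.CV (G0 Homog EqC act StFar)
open Pool.Agent.Helper28.WK
open Pool.Agent.Helper14.WK

namespace Pool.Agent.Helper28.T7N

open Pool.Agent.Helper28.LV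
open Pool.Agent.Helper28.TL (IsNewN)
open Pool.Agent.Helper28.T7
open Pool.Agent.Helper28.TH (OkH ALPlus)

/-- Level `7p`, weights congruent to two modulo four. -/
theorem gen1e (p : ℕ) (hp : p.Prime) (hp2 : p ≠ 7) (κ : ℤ) (hκ : κ ≠ 0) (hTA : TAH p κ)
    (A : ℕ) (hA : 1 ≤ A) (hev : Even A) (hne : NeZero (7 * p ^ 1)) (hk : 0 < (2 * A + 2 : ℤ))
    (f : CuspForm (G0 (7 * p ^ 1)) (2 * A + 2)) (hf : IsNewN f) (hal : ALPlus 7 (p ^ 1) f)
    (hε : RootOneK hk f) : LanK hk f (1 / 2) ≠ 0 := by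
  intro hL
  obtain ⟨a4, kmod, p1, p2, h3, a8, n2, n3, p5, p6, p4, a5, kin⟩ := Pool.Agent.Helper28.TLV.ana
  have a1 := Pool.Agent.Helper63.WK.hKA1
  have a1b := Pool.Agent.Helper92.WK.hKA1b a1
  have ke := Pool.Agent.Helper6.WK.hKE a1
  have b1 := Pool.Agent.Helper82.WK.hKB1
  have b2 := Pool.Agent.Helper81.WK.hKB2 a1 a1b ke b1
  have b3 := Pool.Agent.Helper90.WK.hKB3 a1 b1
  obtain ⟨I, hI, hD⟩ := Pool.Agent.Helper28.T7V.hBrgV a4 kmod p1 p2 h3 a8 p4 p A 1 hp hne hk f hf hal hε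
  have h0 := a5 (7 * p ^ 1) hne A hk f I hI hL
  have hWS := Pool.Agent.Helper28.T7V.hLTr p A 1 I hp hp2 hD h0
  have far := Pool.Agent.Helper38.CV.hFar
  obtain ⟨Ψ, hΨ⟩ := Pool.Agent.Helper28.T7N.hDC (Pool.Agent.Helper28.T7N.hFG far) far
    Pool.Agent.Helper28.T7V.hLMap Pool.Agent.Helper28.T7V.hLDen p ⟨hp⟩ A (6 * κ)
    (fun Φ h => hQPH Pool.Agent.Helper28.T7W.hLa Pool.Agent.Helper28.T7W.hLb2
      Pool.Agent.Helper88.T7W.hUIp
      Pool.Agent.Helper28.T7V.hLPol Pool.Agent.Helper28.T7V.msT Pool.Agent.Helper34.LV.hRgT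
      Pool.Agent.Helper47.LV.hEG
      Pool.Agent.Helper28.T7N.hQFa Pool.Agent.Helper28.T7N.hQFb Pool.Agent.Helper28.T7V.hLW1
      Pool.Agent.Helper28.T7V.hLW2 Pool.Agent.Helper28.T7V.hLW4 p ⟨hp⟩ κ hp2 hTA A Φ h) (PhN A I) hWS
  have nh := Pool.Agent.Helper53.TLN.hNH2 a1 (Pool.Agent.Helper60.TLN.hNH1 a1)
  have ns := Pool.Agent.Helper28.T7N.hNS b1 b2 b3
  have nr := Pool.Agent.Helper51.T7N.hNR b1 b3 ns
  have ne := Pool.Agent.Helper28.T7N.hNE a1 nh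
  have ca5 := Pool.Agent.Helper45.T7N.hCA5 Pool.Agent.Helper60.LV.hCA1 Pool.Agent.Helper97.LV.hCA2
    Pool.Agent.Helper4.LV.hCA3 Pool.Agent.Helper76.LV.hCA4
  exact hANH nr ne ca5 Pool.Agent.Helper44.T7N.hMF Pool.Agent.Helper22.TLN.hNX a1
    p hp (6 * κ) (mul_ne_zero (by norm_num) hκ) A hev hA hne f hf I Ψ hI hD.inf hD.hom hΨ

/-- Theorem A for the symbols of the extended group and the prime `p ≠ 7` implies: the central values
of all newforms `f` of weight `2A+2 ≥ 4`, level `7 p^n`, `n ≥ 0`, with `f | W_7 = f` and root number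
`+1` are not zero. -/
theorem genAll7 (p : ℕ) (hp : p.Prime) (hp2 : p ≠ 7) (κ : ℤ) (hκ : κ ≠ 0) (hTA : TAH p κ)
    (A n : ℕ) (hA : 1 ≤ A) (hne : NeZero (7 * p ^ n)) (hk : 0 < (2 * A + 2 : ℤ))
    (f : CuspForm (G0 (7 * p ^ n)) (2 * A + 2)) (hf : IsNewN f) (hal : ALPlus 7 (p ^ n) f)
    (hε : RootOneK hk f) : LanK hk f (1 / 2) ≠ 0 := by
  rcases Nat.lt_or_ge n 2 with h | h
  · have h01 : n = 0 ∨ n = 1 := by omega
    rcases h01 with rfl | rfl
    · exact Pool.Agent.Helper28.T7V.genV0 p hp hp2 κ hκ hTA A hA hne hk f hf hal hε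
    · rcases Nat.even_or_odd A with he | ho
      · exact gen1e p hp hp2 κ hκ hTA A hA he hne hk f hf hal hε
      · exact Pool.Agent.Helper28.T7V.genV1 p hp hp2 κ hκ hTA A hA ho hne hk f hf hal hε
  · exact Pool.Agent.Helper28.T7V.genV2 p hp hp2 κ hκ hTA A n hA h hne hk f hf hal hε

end Pool.Agent.Helper28.T7N
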